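import Pool.Agent.Helper3.AK.Goals4

/-!
# Packet AK-NUMB: numbers for the base
-/

set_option autoImplicit false

open Filter Real

namespace Pool.Agent.Helper3.AK

namespace NUMBaux

theorem ev2 (K c : ℝ) (hc : 0 < c) : ∀ᶠ n : ℕ in atTop, K * Real.log n ^ 2 ≤ (n : ℝ) ^ c := by
  have h1 : (fun x : ℝ => Real.log x ^ (2 : ℝ)) =o[atTop] fun x => x ^ c :=
    isLittleO_log_rpow_rpow_atTop 2 hc
  have h2 := h1.bound (c := 1 / (|K| + 1)) (by positivity)
  have h3 := (tendsto_natCast_atTop_atTop (R := ℝ)).eventually h2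
  filter_upwards [h3] with n hn
  rw [Real.rpow_two, Real.norm_of_nonneg (sq_nonneg _), Real.norm_of_nonneg (by positivity)] at hn
  have h4 : (0 : ℝ) < |K| + 1 := by positivity
  have h5 : K ≤ |K| + 1 := by linarith [le_abs_self K]
  calc K * Real.log n ^ 2 ≤ (|K| + 1) * Real.log n ^ 2 :=
        mul_le_mul_of_nonneg_right h5 (sq_nonneg _)
    _ ≤ (|K| + 1) * (1 / (|K| + 1) * (n : ℝ) ^ c) := mul_le_mul_of_nonneg_left hn h4.le
    _ = (n : ℝ) ^ c := by field_simp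

theorem ev1 : ∀ᶠ n : ℕ in atTop, (1 : ℝ) ≤ Real.log n :=
  (Real.tendsto_log_atTop.comp tendsto_natCast_atTop_atTop).eventually_ge_atTop 1

/-- first term -/
theorem term1 {δ C₁ R l N M B : ℝ} (hB : 1 ≤ B) (hR : 1 ≤ R)
    (hN : 1 ≤ N) (hR3 : R ≤ N ^ (1 / 3 - δ)) (hM0 : 0 ≤ M) (hM : M + 1 ≤ (C₁ + 1) * R * l)
    (h4 : 8 * Real.exp 1 * (C₁ + 1) ^ 2 * l ^ 2 ≤ N ^ δ) :
    2 * Real.exp 1 * (2 * R * (M + 1)) ^ 2 / (B * R * N) ≤ N ^ (-(2 * δ)) := by
  have hN0 : 0 < N := by linarith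
  have hR0 : 0 < R := by linarith
  rw [div_le_iff₀ (by positivity)]
  have h1 : R ^ 3 ≤ N ^ (1 - 3 * δ) := by
    calc R ^ 3 ≤ (N ^ (1 / 3 - δ)) ^ 3 := pow_le_pow_left₀ hR0.le hR3 3
      _ = N ^ (1 - 3 * δ) := by
          rw [← Real.rpow_natCast, ← Real.rpow_mul hN0.le]
          congr 1
          push_cast
          ring
  have h2 : (2 * R * (M + 1)) ^ 2 ≤ 4 * R ^ 2 * ((C₁ + 1) * R * l) ^ 2 := by
    have : (M + 1) ^ 2 ≤ ((C₁ + 1) * R * l) ^ 2 := pow_le_pow_left₀ (by linarith) hM 2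
    calc (2 * R * (M + 1)) ^ 2 = 4 * R ^ 2 * (M + 1) ^ 2 := by ring
      _ ≤ _ := mul_le_mul_of_nonneg_left this (by positivity)
  have e0 := Real.exp_pos 1
  calc 2 * Real.exp 1 * (2 * R * (M + 1)) ^ 2
      ≤ 2 * Real.exp 1 * (4 * R ^ 2 * ((C₁ + 1) * R * l) ^ 2) :=
        mul_le_mul_of_nonneg_left h2 (by positivity)
    _ = (8 * Real.exp 1 * (C₁ + 1) ^ 2 * l ^ 2) * (R * R ^ 3) := by ring
    _ ≤ N ^ δ * (R * R ^ 3) := mul_le_mul_of_nonneg_right h4 (by positivity)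
    _ ≤ N ^ δ * (R * N ^ (1 - 3 * δ)) := by
        apply mul_le_mul_of_nonneg_left _ (by positivity)
        exact mul_le_mul_of_nonneg_left h1 hR0.le
    _ = 1 * R * (N ^ (-(2 * δ)) * N) := by
        have : N ^ δ * N ^ (1 - 3 * δ) = N ^ (-(2 * δ)) * N := by
          rw [← Real.rpow_add hN0]
          nth_rewrite 3 [← Real.rpow_one N]
          rw [← Real.rpow_add hN0]
          congr 1
          ring
        calc N ^ δ * (R * N ^ (1 - 3 * δ)) = R * (N ^ δ * N ^ (1 - 3 * δ)) := by ring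
          _ = _ := by rw [this]; ring
    _ ≤ B * R * (N ^ (-(2 * δ)) * N) := by
        apply mul_le_mul_of_nonneg_right _ (by positivity)
        exact mul_le_mul_of_nonneg_right hB hR0.le
    _ = N ^ (-(2 * δ)) * (B * R * N) := by ring

/-- the terms of the third sum -/
theorem term3 {N R B : ℝ} {h r₁ : ℕ} (hN : 1 ≤ N) (hR : 1 ≤ R) (hRN : R ≤ N ^ (1 / 3 : ℝ))
    (hB : 1 ≤ B) (hh : (h : ℝ) ≤ B * R) (hr : r₁ ≤ h) (hr1 : 98 / 100 * R ≤ r₁)
    (h5 : 4 * B ≤ N ^ (64 / 100 : ℝ)) (h6 : 4 * B ^ 2 ≤ N ^ (1 / 100 : ℝ)) :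
    (4 * h / N) ^ h * N ^ (2 * ⌊(1 / 100 : ℝ) * h⌋₊) * (h / N) ^ r₁ ≤
      Real.exp (-(127 / 100) * Real.log N * R) := by
  have hN0 : 0 < N := by linarith
  have hR0 : 0 < R := by linarith
  have hB0 : 0 < B := by linarith
  have hl : 0 ≤ Real.log N := Real.log_nonneg hN
  set y := 4 * (B * R) / N * N ^ (2 / 100 : ℝ) with hy
  have hy0 : 0 ≤ y := by positivity
  have a1 : (4 * (h : ℝ) / N) ^ h ≤ (4 * (B * R) / N) ^ h := by
    apply pow_le_pow_left₀ (by positivity)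
    apply div_le_div_of_nonneg_right _ hN0.le
    linarith
  have a2 : N ^ (2 * ⌊(1 / 100 : ℝ) * h⌋₊) ≤ (N ^ (2 / 100 : ℝ)) ^ h := by
    rw [← Real.rpow_natCast N, ← Real.rpow_natCast (N ^ (2 / 100 : ℝ)), ← Real.rpow_mul hN0.le]
    apply Real.rpow_le_rpow_of_exponent_le hN
    have := Nat.floor_le (show (0 : ℝ) ≤ (1 / 100 : ℝ) * h by positivity)
    push_cast
    linarith
  have a3 : ((h : ℝ) / N) ^ r₁ ≤ (B * R / N) ^ r₁ := by
    apply pow_le_pow_left₀ (by positivity)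
    exact div_le_div_of_nonneg_right hh hN0.le
  have e1 : N ^ (1 / 3 : ℝ) * N ^ (2 / 100 : ℝ) * N ^ (64 / 100 : ℝ) ≤ N := by
    rw [← Real.rpow_add hN0, ← Real.rpow_add hN0]
    nth_rewrite 2 [← Real.rpow_one N]
    apply Real.rpow_le_rpow_of_exponent_le hN
    norm_num
  have y1 : y ≤ 1 := by
    rw [hy, div_mul_eq_mul_div, div_le_one hN0]
    calc 4 * (B * R) * N ^ (2 / 100 : ℝ) = R * N ^ (2 / 100 : ℝ) * (4 * B) := by ring
      _ ≤ N ^ (1 / 3 : ℝ) * N ^ (2 / 100 : ℝ) * N ^ (64 / 100 : ℝ) := by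
          apply mul_le_mul _ h5 (by positivity) (by positivity)
          exact mul_le_mul_of_nonneg_right hRN (by positivity)
      _ ≤ N := e1
  have z1 : y * (B * R / N) ≤ N ^ (-(13 / 10) : ℝ) := by
    rw [hy]
    have : 4 * (B * R) / N * N ^ (2 / 100 : ℝ) * (B * R / N) =
        (4 * B ^ 2) * R ^ 2 * N ^ (2 / 100 : ℝ) / N ^ 2 := by
      field_simp
    rw [this, div_le_iff₀ (by positivity)]
    have b1 : R ^ 2 ≤ N ^ (2 / 3 : ℝ) := by
      calc R ^ 2 ≤ (N ^ (1 / 3 : ℝ)) ^ 2 := pow_le_pow_left₀ hR0.le hRN 2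
        _ = N ^ (2 / 3 : ℝ) := by
            rw [← Real.rpow_natCast, ← Real.rpow_mul hN0.le]
            norm_num
    calc (4 * B ^ 2) * R ^ 2 * N ^ (2 / 100 : ℝ)
        ≤ N ^ (1 / 100 : ℝ) * N ^ (2 / 3 : ℝ) * N ^ (2 / 100 : ℝ) := by
          apply mul_le_mul_of_nonneg_right _ (by positivity)
          exact mul_le_mul h6 b1 (by positivity) (by positivity)
      _ ≤ N ^ (-(13 / 10) : ℝ) * N ^ 2 := by
          rw [← Real.rpow_add hN0, ← Real.rpow_add hN0, ← Real.rpow_natCast N 2,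
            ← Real.rpow_add hN0]
          apply Real.rpow_le_rpow_of_exponent_le hN
          norm_num
  calc (4 * (h : ℝ) / N) ^ h * N ^ (2 * ⌊(1 / 100 : ℝ) * h⌋₊) * (h / N) ^ r₁
      ≤ (4 * (B * R) / N) ^ h * (N ^ (2 / 100 : ℝ)) ^ h * (B * R / N) ^ r₁ := by
        apply mul_le_mul _ a3 (by positivity) (by positivity)
        exact mul_le_mul a1 a2 (by positivity) (by positivity)
    _ = y ^ h * (B * R / N) ^ r₁ := by rw [← mul_pow]
    _ ≤ y ^ r₁ * (B * R / N) ^ r₁ := by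
        apply mul_le_mul_of_nonneg_right _ (by positivity)
        exact pow_le_pow_of_le_one hy0 y1 hr
    _ = (y * (B * R / N)) ^ r₁ := (mul_pow _ _ _).symm
    _ ≤ (N ^ (-(13 / 10) : ℝ)) ^ r₁ := pow_le_pow_left₀ (by positivity) z1 r₁
    _ = Real.exp (-(13 / 10) * Real.log N * r₁) := by
        rw [Real.rpow_def_of_pos hN0, ← Real.exp_nat_mul]
        congr 1
        ring
    _ ≤ Real.exp (-(127 / 100) * Real.log N * R) := by
        apply Real.exp_le_exp.2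
        have q1 := mul_le_mul_of_nonneg_left hr1 hl
        have q2 := mul_nonneg hl hR0.le
        linarith

end NUMBaux

open NUMBaux

theorem numb (hP : S_PMB) : S_NUMB := by
  intro δ hδ hδ3
  set B' : ℕ := ⌈2 / δ⌉₊ with hB'
  have hB1 : 2 / δ ≤ (B' : ℝ) := Nat.le_ceil _
  have hBδ : 2 ≤ δ * B' := by
    rw [div_le_iff₀ hδ] at hB1
    linarith
  have hBge : (1 : ℝ) ≤ B' := by
    refine le_trans ?_ hB1
    rw [le_div_iff₀ hδ]
    linarith
  have hBnat : 1 ≤ B' := by exact_mod_cast hBge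
  obtain ⟨κ', hκ⟩ := pow_unbounded_of_one_lt ((B' : ℝ) / (98 / 100)) (show (1 : ℝ) < 1 + 1 / 100 by norm_num)
  have hκ2 : (B' : ℝ) < (1 + 1 / 100) ^ κ' * (1 - 2 * (1 / 100)) := by
    rw [div_lt_iff₀ (by norm_num)] at hκ
    refine lt_of_lt_of_le hκ (le_of_eq ?_)
    norm_num
  set lam : ℕ := 2 * κ' + 1 with hlam
  have hlam1 : 1 ≤ lam := by omega
  have hlamR : (1 : ℝ) ≤ lam := by exact_mod_cast hlam1
  set A : ℝ := 2 * lam * 3 ^ lam * (2 * B' + 2 + 8 * lam) + 2 with hA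
  have hA0 : 0 < A := by positivity
  refine ⟨lam * (100 * A + 2), by positivity, ?_⟩
  intro C₁ hC₁
  have hC10 : 0 < C₁ := lt_trans (by positivity) hC₁
  filter_upwards [ev1, eventually_ge_atTop 1,
    ev2 (4 * (C₁ + 1) + 4) (1 / 3) (by norm_num), ev2 (B' + 2) (2 / 3) (by norm_num),
    ev2 (8 * Real.exp 1 * (C₁ + 1) ^ 2) δ hδ, ev2 (4 * B') (64 / 100) (by norm_num),
    ev2 (4 * B' ^ 2) (1 / 100) (by norm_num), ev2 (16 * ((C₁ + 1) * (B' + 1))) (6 / 100) (by norm_num),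
    ev2 4 (13 / 100) (by norm_num)] with n hl hn1 g2 g3 g4 g5 g6 g7 g8
  intro r hr hrn m hm0 hm1
  set l := Real.log n with hldef
  set N : ℝ := (n : ℝ) with hNdef
  set R : ℝ := (r : ℝ) with hRdef
  have hN1 : 1 ≤ N := Nat.one_le_cast.2 hn1
  have hN0 : 0 < N := by linarith
  have hR1 : 1 ≤ R := Nat.one_le_cast.2 hr
  have hR0 : 0 < R := by linarith
  have hl0 : 0 < l := by linarith
  have hl2 : l ≤ l ^ 2 := le_self_pow₀ hl two_ne_zero
  have hl2' : 1 ≤ l ^ 2 := one_le_pow₀ hl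
  have hRl : 1 ≤ R * l := one_le_mul_of_one_le_of_one_le hR1 hl
  have hRN : R ≤ N ^ (1 / 3 : ℝ) := hrn.trans (Real.rpow_le_rpow_of_exponent_le hN1 (by linarith))
  have hM : (m : ℝ) + 1 ≤ (C₁ + 1) * R * l := by
    calc (m : ℝ) + 1 ≤ C₁ * R * l + R * l := add_le_add hm1 hRl
      _ = _ := by ring
  have hR2 : R ^ 2 ≤ N ^ (2 / 3 : ℝ) := by
    calc R ^ 2 ≤ (N ^ (1 / 3 : ℝ)) ^ 2 := pow_le_pow_left₀ hR0.le hRN 2
      _ = N ^ (2 / 3 : ℝ) := by
          rw [← Real.rpow_natCast, ← Real.rpow_mul hN0.le]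
          norm_num
  have hNN : N ^ (2 / 3 : ℝ) * N ^ (1 / 3 : ℝ) = N := by
    rw [← Real.rpow_add hN0]
    norm_num
  have hN23 : 1 ≤ N ^ (2 / 3 : ℝ) := Real.one_le_rpow hN1 (by norm_num)
  -- side conditions
  have s1 : 4 * r * (m + 1) + 4 ≤ n := by
    have : (4 : ℝ) * R * (m + 1) + 4 ≤ N := by
      calc (4 : ℝ) * R * (m + 1) + 4 ≤ 4 * R * ((C₁ + 1) * R * l) + 4 := by
            have := mul_le_mul_of_nonneg_left hM (show (0 : ℝ) ≤ 4 * R by positivity)
            linarith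
        _ = 4 * (C₁ + 1) * (R ^ 2 * l) + 4 := by ring
        _ ≤ 4 * (C₁ + 1) * (N ^ (2 / 3 : ℝ) * l ^ 2) + 4 * (N ^ (2 / 3 : ℝ) * l ^ 2) := by
            have h1 : R ^ 2 * l ≤ N ^ (2 / 3 : ℝ) * l ^ 2 :=
              mul_le_mul hR2 hl2 hl0.le (by positivity)
            have h2 : 1 ≤ N ^ (2 / 3 : ℝ) * l ^ 2 := one_le_mul_of_one_le_of_one_le hN23 hl2'
            have h3 := mul_le_mul_of_nonneg_left h1 (show (0 : ℝ) ≤ 4 * (C₁ + 1) by positivity)
            linarith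
        _ = N ^ (2 / 3 : ℝ) * ((4 * (C₁ + 1) + 4) * l ^ 2) := by ring
        _ ≤ N ^ (2 / 3 : ℝ) * N ^ (1 / 3 : ℝ) := mul_le_mul_of_nonneg_left g2 (by positivity)
        _ = N := hNN
    have h' : ((4 * r * (m + 1) + 4 : ℕ) : ℝ) ≤ (n : ℝ) := by push_cast; exact this
    exact_mod_cast h'
  have s2 : B' * r + 2 ≤ n := by
    have : (B' : ℝ) * R + 2 ≤ N := by
      have hN13 : 1 ≤ N ^ (1 / 3 : ℝ) := Real.one_le_rpow hN1 (by norm_num)
      calc (B' : ℝ) * R + 2 ≤ B' * N ^ (1 / 3 : ℝ) + 2 * N ^ (1 / 3 : ℝ) := by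
            have := mul_le_mul_of_nonneg_left hRN (show (0 : ℝ) ≤ B' by positivity)
            linarith
        _ = (B' + 2) * N ^ (1 / 3 : ℝ) := by ring
        _ ≤ ((B' + 2) * l ^ 2) * N ^ (1 / 3 : ℝ) := by
            apply mul_le_mul_of_nonneg_right _ (by positivity)
            exact le_mul_of_one_le_right (by positivity) hl2'
        _ ≤ N ^ (2 / 3 : ℝ) * N ^ (1 / 3 : ℝ) := mul_le_mul_of_nonneg_right g3 (by positivity)
        _ = N := hNN
    have h' : ((B' * r + 2 : ℕ) : ℝ) ≤ (n : ℝ) := by push_cast; exact this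
    exact_mod_cast h'
  have hdiv : (m : ℝ) / lam - 1 < ((m / lam : ℕ) : ℝ) := by
    have h1 : m < lam * (m / lam) + lam := by
      have := Nat.div_add_mod m lam
      have := Nat.mod_lt m (show 0 < lam by omega)
      omega
    have h2 : (m : ℝ) < lam * ((m / lam : ℕ) : ℝ) + lam := by exact_mod_cast h1
    rw [sub_lt_iff_lt_add, div_lt_iff₀ (by linarith)]
    calc (m : ℝ) < lam * ((m / lam : ℕ) : ℝ) + lam := h2
      _ = _ := by ring
  have hmlam : (100 * A + 2) * (R * l) ≤ (m : ℝ) / lam := by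
    rw [le_div_iff₀ (by linarith)]
    calc (100 * A + 2) * (R * l) * lam = lam * (100 * A + 2) * R * l := by ring
      _ ≤ m := hm0
  have s3 : 2 ≤ m / lam := by
    have h1 : (2 : ℝ) ≤ (m : ℝ) / lam - 1 := by
      have hA2 : 2 ≤ A := by
        have : (0 : ℝ) ≤ 2 * lam * 3 ^ lam * (2 * B' + 2 + 8 * lam) := by positivity
        linarith
      have h3 := mul_le_mul_of_nonneg_left hRl (show 0 ≤ 100 * A + 2 by linarith)
      linarith
    have h2 : (2 : ℝ) < ((m / lam : ℕ) : ℝ) := lt_of_le_of_lt h1 hdiv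
    have h3 : 2 < m / lam := by exact_mod_cast h2
    omega
  have s4 : (2 * (2 * κ' + 1) * 3 ^ (2 * κ' + 1) * ((2 * B' + 2) * r + 4 * r * (2 * κ' + 1) *
      (2 * r * Real.log n)) + 2 * r ≤ (1 / 100 : ℝ) * r * ((m / (2 * κ' + 1) : ℕ) - 1 : ℝ)) := by
    have hlamc : (2 * (κ' : ℝ) + 1) = (lam : ℝ) := by
      rw [hlam]; push_cast; ring
    rw [hlamc]
    change 2 * (lam : ℝ) * 3 ^ lam * ((2 * B' + 2) * R + 4 * R * lam * (2 * R * l)) + 2 * R ≤
      (1 / 100 : ℝ) * R * (((m / lam : ℕ) : ℝ) - 1)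
    have q0 : (0 : ℝ) ≤ 2 * lam * 3 ^ lam := by positivity
    have q1 : (2 * (B' : ℝ) + 2) + 4 * lam * (2 * R * l) ≤ (2 * B' + 2 + 8 * lam) * (R * l) := by
      have : (2 * (B' : ℝ) + 2) * 1 ≤ (2 * B' + 2) * (R * l) :=
        mul_le_mul_of_nonneg_left hRl (by positivity)
      calc (2 * (B' : ℝ) + 2) + 4 * lam * (2 * R * l)
          = (2 * (B' : ℝ) + 2) * 1 + 8 * lam * (R * l) := by ring
        _ ≤ (2 * B' + 2) * (R * l) + 8 * lam * (R * l) := by linarith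
        _ = _ := by ring
    have q2 : 2 * (lam : ℝ) * 3 ^ lam * ((2 * (B' : ℝ) + 2) + 4 * lam * (2 * R * l)) + 2 ≤
        A * (R * l) := by
      have := mul_le_mul_of_nonneg_left q1 q0
      calc 2 * (lam : ℝ) * 3 ^ lam * ((2 * (B' : ℝ) + 2) + 4 * lam * (2 * R * l)) + 2
          ≤ 2 * (lam : ℝ) * 3 ^ lam * ((2 * B' + 2 + 8 * lam) * (R * l)) + 2 * (R * l) := by
            linarith
        _ = A * (R * l) := by rw [hA]; ring
    have q3 : A * (R * l) ≤ (1 / 100 : ℝ) * (((m / lam : ℕ) : ℝ) - 1) := by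
      have e1 : (100 * A + 2) * (R * l) = 100 * (A * (R * l)) + 2 * (R * l) := by ring
      rw [e1] at hmlam
      linarith
    have q4 := mul_le_mul_of_nonneg_left (q2.trans q3) hR0.le
    calc 2 * (lam : ℝ) * 3 ^ lam * ((2 * B' + 2) * R + 4 * R * lam * (2 * R * l)) + 2 * R
        = R * (2 * (lam : ℝ) * 3 ^ lam * ((2 * (B' : ℝ) + 2) + 4 * lam * (2 * R * l)) + 2) := by
          ring
      _ ≤ R * ((1 / 100 : ℝ) * (((m / lam : ℕ) : ℝ) - 1)) := q4
      _ = _ := by ring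
  have key := hP n r m κ' B' (1 / 100) hr hBnat (by norm_num) (by norm_num) hκ2 s3 s1 s2 s4
  refine key.trans ?_
  -- the three terms
  have hlR : 0 ≤ l * R := by positivity
  have t1 : (2 * Real.exp 1 * ((2 * r * (m + 1) : ℕ) : ℝ) ^ 2 / ((B' * r : ℕ) * n)) ^ (B' * r) ≤
      Real.exp (-(12 / 10) * l * R) := by
    have h1 := term1 (M := (m : ℝ)) (B := (B' : ℝ)) hBge hR1 hN1 hrn (by positivity) hM g4
    have h2 : 2 * Real.exp 1 * ((2 * r * (m + 1) : ℕ) : ℝ) ^ 2 / ((B' * r : ℕ) * n) =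
        2 * Real.exp 1 * (2 * R * (m + 1)) ^ 2 / (B' * R * N) := by
      push_cast
      rfl
    rw [h2]
    calc (2 * Real.exp 1 * (2 * R * (m + 1)) ^ 2 / (B' * R * N)) ^ (B' * r)
        ≤ (N ^ (-(2 * δ))) ^ (B' * r) := pow_le_pow_left₀ (by positivity) h1 _
      _ = Real.exp (-(2 * (δ * B')) * (l * R)) := by
          rw [Real.rpow_def_of_pos hN0, ← Real.exp_nat_mul]
          congr 1
          push_cast
          ring
      _ ≤ Real.exp (-(12 / 10) * l * R) := by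
          apply Real.exp_le_exp.2
          have q := mul_le_mul_of_nonneg_right hBδ hlR
          linarith
  have t2 : 2 * Real.exp (-(2 * r * Real.log n)) ≤ 2 * Real.exp (-(12 / 10) * l * R) := by
    apply mul_le_mul_of_nonneg_left _ (by norm_num)
    apply Real.exp_le_exp.2
    change -(2 * R * l) ≤ -(12 / 10) * l * R
    linarith
  have t3 : ((m : ℝ) + 1) *
      ∑ h ∈ Finset.Icc ⌈(1 - 2 * (1 / 100 : ℝ)) * r⌉₊ (B' * r), (4 * h / n : ℝ) ^ h *
        (n : ℝ) ^ (2 * ⌊(1 / 100 : ℝ) * h⌋₊) * 4 ^ r *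
          ((h : ℝ) / n) ^ ⌈(1 - 2 * (1 / 100 : ℝ)) * r⌉₊ ≤ Real.exp (-(12 / 10) * l * R) := by
    set r₁ := ⌈(1 - 2 * (1 / 100 : ℝ)) * r⌉₊ with hr₁
    have hr1 : 98 / 100 * R ≤ r₁ := by
      have := Nat.le_ceil ((1 - 2 * (1 / 100 : ℝ)) * r)
      rw [← hr₁] at this
      have e : (1 - 2 * (1 / 100 : ℝ)) * r = 98 / 100 * R := by
        show _ * R = _
        norm_num
      rw [← e]
      exact this
    have hterm : ∀ h ∈ Finset.Icc r₁ (B' * r), (4 * h / n : ℝ) ^ h *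
        (n : ℝ) ^ (2 * ⌊(1 / 100 : ℝ) * h⌋₊) * 4 ^ r * ((h : ℝ) / n) ^ r₁ ≤
        4 ^ r * Real.exp (-(127 / 100) * l * R) := by
      intro h hh
      rw [Finset.mem_Icc] at hh
      have hhB : (h : ℝ) ≤ B' * R := by
        have : ((h : ℕ) : ℝ) ≤ ((B' * r : ℕ) : ℝ) := by exact_mod_cast hh.2
        push_cast at this
        exact this
      have h5' : 4 * (B' : ℝ) ≤ N ^ (64 / 100 : ℝ) :=
        (le_mul_of_one_le_right (by positivity) hl2').trans g5
      have h6' : 4 * (B' : ℝ) ^ 2 ≤ N ^ (1 / 100 : ℝ) :=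
        (le_mul_of_one_le_right (by positivity) hl2').trans g6
      have := term3 hN1 hR1 hRN hBge hhB hh.1 hr1 h5' h6'
      calc (4 * h / n : ℝ) ^ h * (n : ℝ) ^ (2 * ⌊(1 / 100 : ℝ) * h⌋₊) * 4 ^ r *
            ((h : ℝ) / n) ^ r₁ = 4 ^ r * ((4 * h / n : ℝ) ^ h *
            (n : ℝ) ^ (2 * ⌊(1 / 100 : ℝ) * h⌋₊) * ((h : ℝ) / n) ^ r₁) := by ring
        _ ≤ _ := mul_le_mul_of_nonneg_left this (by positivity)
    have hsum := Finset.sum_le_card_nsmul _ _ _ hterm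
    rw [nsmul_eq_mul, Nat.card_Icc] at hsum
    have hcard : ((B' * r + 1 - r₁ : ℕ) : ℝ) ≤ (B' + 1) * R := by
      have h1 : B' * r + 1 - r₁ ≤ B' * r + 1 := Nat.sub_le _ _
      have h2 : ((B' * r + 1 - r₁ : ℕ) : ℝ) ≤ ((B' * r + 1 : ℕ) : ℝ) := by exact_mod_cast h1
      push_cast at h2
      change _ ≤ (B' : ℝ) * R + 1 at h2
      linarith
    have hR4 : R ^ 2 ≤ 4 ^ r := by
      have h1 : r ≤ 2 ^ r := Nat.lt_two_pow_self.le
      have h2 : ((r : ℕ) : ℝ) ≤ ((2 ^ r : ℕ) : ℝ) := Nat.cast_le.2 h1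
      push_cast at h2
      calc R ^ 2 ≤ (2 ^ r) ^ 2 := pow_le_pow_left₀ hR0.le h2 2
        _ = 4 ^ r := by rw [← pow_mul, mul_comm, pow_mul]; norm_num
    set K3 : ℝ := (C₁ + 1) * (B' + 1) with hK3
    have hK31 : 1 ≤ K3 := one_le_mul_of_one_le_of_one_le (by linarith) (by linarith)
    have hE := Real.exp_pos (-(127 / 100) * l * R)
    calc ((m : ℝ) + 1) * _ ≤ ((C₁ + 1) * R * l) * (((B' + 1) * R) *
          (4 ^ r * Real.exp (-(127 / 100) * l * R))) := by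
          apply mul_le_mul hM _ _ (by positivity)
          · refine hsum.trans ?_
            exact mul_le_mul_of_nonneg_right hcard (by positivity)
          · exact Finset.sum_nonneg fun h _ => by positivity
      _ = K3 * l * (R ^ 2 * 4 ^ r) * Real.exp (-(127 / 100) * l * R) := by
          rw [hK3]; ring
      _ ≤ K3 * l * (4 ^ r * 4 ^ r) * Real.exp (-(127 / 100) * l * R) := by
          apply mul_le_mul_of_nonneg_right _ hE.le
          apply mul_le_mul_of_nonneg_left _ (by positivity)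
          exact mul_le_mul_of_nonneg_right hR4 (by positivity)
      _ = (K3 * l) * 16 ^ r * Real.exp (-(127 / 100) * l * R) := by
          rw [← mul_pow]; norm_num
      _ ≤ (K3 * l) ^ r * 16 ^ r * Real.exp (-(127 / 100) * l * R) := by
          apply mul_le_mul_of_nonneg_right _ hE.le
          apply mul_le_mul_of_nonneg_right _ (by positivity)
          exact le_self_pow₀ (one_le_mul_of_one_le_of_one_le hK31 hl) (by omega)
      _ = (16 * K3 * l) ^ r * Real.exp (-(127 / 100) * l * R) := by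
          rw [← mul_pow]; congr 2; ring
      _ ≤ (N ^ (6 / 100 : ℝ)) ^ r * Real.exp (-(127 / 100) * l * R) := by
          apply mul_le_mul_of_nonneg_right _ hE.le
          apply pow_le_pow_left₀ (by positivity)
          refine le_trans ?_ g7
          exact mul_le_mul_of_nonneg_left hl2 (by positivity)
      _ = Real.exp (6 / 100 * l * R) * Real.exp (-(127 / 100) * l * R) := by
          rw [Real.rpow_def_of_pos hN0, ← Real.exp_nat_mul]
          congr 2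
          ring
      _ ≤ Real.exp (-(12 / 10) * l * R) := by
          rw [← Real.exp_add]
          apply Real.exp_le_exp.2
          linarith
  have t4 : (4 : ℝ) ≤ Real.exp (13 / 100 * (l * R)) := by
    calc (4 : ℝ) ≤ 4 * l ^ 2 := le_mul_of_one_le_right (by norm_num) hl2'
      _ ≤ N ^ (13 / 100 : ℝ) := g8
      _ = Real.exp (13 / 100 * l) := by
          rw [Real.rpow_def_of_pos hN0]
          congr 1
          ring
      _ ≤ Real.exp (13 / 100 * (l * R)) := by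
          apply Real.exp_le_exp.2
          have q := le_mul_of_one_le_right hl0.le hR1
          linarith
  calc _ ≤ Real.exp (-(12 / 10) * l * R) + 2 * Real.exp (-(12 / 10) * l * R) +
        Real.exp (-(12 / 10) * l * R) := add_le_add (add_le_add t1 t2) t3
    _ = 4 * Real.exp (-(12 / 10) * l * R) := by ring
    _ ≤ Real.exp (13 / 100 * (l * R)) * Real.exp (-(12 / 10) * l * R) :=
        mul_le_mul_of_nonneg_right t4 (Real.exp_pos _).le
    _ ≤ Real.exp (-(17 / 16) * R * l) := by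
        rw [← Real.exp_add]
        apply Real.exp_le_exp.2
        linarith

end Pool.Agent.Helper3.AK
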